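import Pool.Agent.H773.LK.Spec2

/-!
# Project LK of helper773, part POIS: a bounded Borel transform near a compact null set
-/

set_option autoImplicit false

open MeasureTheory Set Filter Topology Metric
open scoped ENNReal NNReal

namespace Pool.Agent.H860.LK

open Pool.Agent.H773.LK

theorem ball_le (ν : Measure ℝ) [IsFiniteMeasure ν] (s ε C : ℝ) (hε : 0 < ε)
    (h : ‖∫ t : ℝ, 1 / ((t : ℂ) - ((s : ℂ) - (ε : ℂ) * Complex.I)) ∂ν‖ ≤ C) :
    ν.real (closedBall s ε) ≤ 2 * C * ε := by
  set g : ℝ → ℂ := fun t => 1 / ((t : ℂ) - ((s : ℂ) - (ε : ℂ) * Complex.I)) with hg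
  have him : ∀ t : ℝ, ((t : ℂ) - ((s : ℂ) - (ε : ℂ) * Complex.I)).im = ε := by
    intro t
    simp
  have hre : ∀ t : ℝ, ((t : ℂ) - ((s : ℂ) - (ε : ℂ) * Complex.I)).re = t - s := by
    intro t
    simp
  have hne : ∀ t : ℝ, ((t : ℂ) - ((s : ℂ) - (ε : ℂ) * Complex.I)) ≠ 0 := by
    intro t h0
    have := him t
    rw [h0, Complex.zero_im] at this
    exact hε.ne this
  have hcont : Continuous g := by
    refine continuous_const.div ?_ hne
    fun_prop
  have hbd : ∀ t, ‖g t‖ ≤ 1 / ε := by
    intro t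
    rw [hg, norm_div, norm_one]
    refine one_div_le_one_div_of_le hε ?_
    have h1 := Complex.abs_im_le_norm ((t : ℂ) - ((s : ℂ) - (ε : ℂ) * Complex.I))
    rw [him t, abs_of_pos hε] at h1
    exact h1
  have hint : Integrable g ν :=
    Integrable.of_bound hcont.aestronglyMeasurable (1 / ε) (Eventually.of_forall hbd)
  have hgim : ∀ t, -(g t).im = ε / ((t - s) ^ 2 + ε ^ 2) := by
    intro t
    have h1 : (g t).im = -ε / ((t - s) ^ 2 + ε ^ 2) := by
      change (1 / ((t : ℂ) - ((s : ℂ) - (ε : ℂ) * Complex.I))).im = _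
      rw [one_div, Complex.inv_im, him, Complex.normSq_apply, hre, him]
      ring
    rw [h1, neg_div, neg_neg]
  have h2 : -(∫ t, g t ∂ν).im = ∫ t, ε / ((t - s) ^ 2 + ε ^ 2) ∂ν := by
    have h3 : (∫ t, g t ∂ν).im = ∫ t, (g t).im ∂ν :=
      (Complex.imCLM.integral_comp_comm hint).symm
    rw [h3, ← integral_neg]
    exact integral_congr_ae (Eventually.of_forall hgim)
  have hint2 : Integrable (fun t => ε / ((t - s) ^ 2 + ε ^ 2)) ν := by
    have h4 : Integrable (fun t => -(g t).im) ν := hint.im.neg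
    exact h4.congr (Eventually.of_forall hgim)
  have h5 : ∫ t, (closedBall s ε).indicator (fun _ => 1 / (2 * ε)) t ∂ν ≤
      ∫ t, ε / ((t - s) ^ 2 + ε ^ 2) ∂ν := by
    refine integral_mono ((integrable_const _).indicator measurableSet_closedBall) hint2
      fun t => ?_
    by_cases ht : t ∈ closedBall s ε
    · rw [indicator_of_mem ht]
      rw [mem_closedBall, Real.dist_eq] at ht
      change 1 / (2 * ε) ≤ ε / ((t - s) ^ 2 + ε ^ 2)
      rw [div_le_div_iff₀ (by positivity) (by positivity)]
      have h6 : (t - s) ^ 2 ≤ ε ^ 2 := sq_le_sq' (by linarith [(abs_le.1 ht).1]) (abs_le.1 ht).2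
      nlinarith
    · rw [indicator_of_notMem ht]
      change (0 : ℝ) ≤ ε / ((t - s) ^ 2 + ε ^ 2)
      positivity
  rw [integral_indicator_const _ measurableSet_closedBall, smul_eq_mul] at h5
  have h7 : -(∫ t, g t ∂ν).im ≤ C :=
    (neg_le_abs _).trans ((Complex.abs_im_le_norm _).trans h)
  rw [h2] at h7
  have h8 : ν.real (closedBall s ε) * (1 / (2 * ε)) ≤ C := h5.trans h7
  rw [mul_one_div, div_le_iff₀ (by positivity)] at h8
  linarith

theorem tonelli (ν : Measure ℝ) [IsFiniteMeasure ν] (B : Set ℝ) (hB : MeasurableSet B) (r : ℝ)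
    (hr : 0 < r) (c : ℝ≥0∞) (h : ∀ s ∈ cthickening r B, ν (closedBall s r) ≤ c) :
    ENNReal.ofReal (2 * r) * ν B ≤ c * volume (cthickening r B) := by
  set S : Set (ℝ × ℝ) := {p | dist p.1 p.2 ≤ r} with hS
  have hSm : MeasurableSet S := (isClosed_le continuous_dist continuous_const).measurableSet
  set f : ℝ → ℝ → ℝ≥0∞ := fun t s => S.indicator 1 (t, s) with hf
  have hfm : AEMeasurable (Function.uncurry f) ((ν.restrict B).prod volume) := by
    have : Function.uncurry f = S.indicator 1 := by
      funext p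
      rfl
    rw [this]
    exact (measurable_one.indicator hSm).aemeasurable
  have e1 : ∫⁻ t in B, (∫⁻ s, f t s) ∂ν = ENNReal.ofReal (2 * r) * ν B := by
    have h1 : ∀ t : ℝ, ∫⁻ s, f t s = ENNReal.ofReal (2 * r) := by
      intro t
      have h2 : (fun s => f t s) = (closedBall t r).indicator 1 := by
        funext s
        by_cases hs : s ∈ closedBall t r
        · have h3 : (t, s) ∈ S := by
            rw [mem_closedBall, dist_comm] at hs
            exact hs
          rw [indicator_of_mem hs]
          exact indicator_of_mem h3 _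
        · have h3 : (t, s) ∉ S := by
            rw [mem_closedBall, dist_comm] at hs
            exact hs
          rw [indicator_of_notMem hs]
          exact indicator_of_notMem h3 _
      rw [h2, lintegral_indicator_one measurableSet_closedBall, Real.volume_closedBall]
    rw [lintegral_congr h1, lintegral_const, Measure.restrict_apply_univ]
  have e2 : ∫⁻ s, (∫⁻ t in B, f t s ∂ν) ≤ c * volume (cthickening r B) := by
    have h1 : ∀ s : ℝ, ∫⁻ t in B, f t s ∂ν ≤ (cthickening r B).indicator (fun _ => c) s := by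
      intro s
      have h2 : (fun t => f t s) = (closedBall s r).indicator 1 := by
        funext t
        by_cases hs : t ∈ closedBall s r
        · have h3 : (t, s) ∈ S := hs
          rw [indicator_of_mem hs]
          exact indicator_of_mem h3 _
        · have h3 : (t, s) ∉ S := hs
          rw [indicator_of_notMem hs]
          exact indicator_of_notMem h3 _
      rw [h2, lintegral_indicator_one measurableSet_closedBall,
        Measure.restrict_apply measurableSet_closedBall]
      by_cases hs : s ∈ cthickening r B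
      · rw [indicator_of_mem hs]
        exact (measure_mono inter_subset_left).trans (h s hs)
      · rw [indicator_of_notMem hs]
        have h4 : closedBall s r ∩ B = ∅ := by
          rw [eq_empty_iff_forall_notMem]
          rintro t ⟨h5, h6⟩
          apply hs
          refine mem_cthickening_of_dist_le s t r B h6 ?_
          rw [dist_comm]
          exact h5
        rw [h4, measure_empty]
    refine (lintegral_mono h1).trans ?_
    rw [lintegral_indicator_const isClosed_cthickening.measurableSet]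
  rw [← e1, lintegral_lintegral_swap hfm]
  exact e2

theorem t_POIS : S_POIS := by
  intro ν _ B hB hB0 hloc
  -- uniform bound
  have hunif : ∃ δ C : ℝ, 0 < δ ∧ 0 ≤ C ∧ ∀ r : ℝ, 0 < r → r ≤ δ → ∀ s ∈ cthickening r B,
      ν (closedBall s r) ≤ ENNReal.ofReal (2 * C * r) := by
    choose! δ C hδ hC using hloc
    obtain ⟨F, hF, hcov⟩ := hB.elim_nhds_subcover (fun t => ball t (δ t / 2))
      (fun t ht => ball_mem_nhds t (half_pos (hδ t ht)))
    obtain ⟨δ0, hδ0, hδ0'⟩ : ∃ δ0 : ℝ, 0 < δ0 ∧ ∀ t ∈ F, δ0 ≤ δ t / 8 := by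
      rcases F.eq_empty_or_nonempty with hE | hne
      · exact ⟨1, one_pos, fun t ht => by rw [hE] at ht; exact absurd ht (Finset.notMem_empty t)⟩
      · obtain ⟨t0, ht0, hmin⟩ := F.exists_min_image (fun t => δ t / 8) hne
        exact ⟨δ t0 / 8, by have := hδ t0 (hF t0 ht0); positivity, hmin⟩
    obtain ⟨C0, hC0, hC0'⟩ : ∃ C0 : ℝ, 0 ≤ C0 ∧ ∀ t ∈ F, C t ≤ C0 := by
      refine ⟨∑ t ∈ F, |C t|, Finset.sum_nonneg fun _ _ => abs_nonneg _, fun t ht => ?_⟩
      exact (le_abs_self _).trans
        (Finset.single_le_sum (f := fun t => |C t|) (fun _ _ => abs_nonneg _) ht)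
    refine ⟨δ0, C0, hδ0, hC0, fun r hr hrδ s hs => ?_⟩
    obtain ⟨b, hb, hsb⟩ : ∃ b ∈ B, dist s b ≤ r := by
      rw [hB.cthickening_eq_biUnion_closedBall hr.le] at hs
      obtain ⟨b, hb, h1⟩ := mem_iUnion₂.1 hs
      exact ⟨b, hb, h1⟩
    obtain ⟨t, ht, hbt⟩ := mem_iUnion₂.1 (hcov hb)
    have h1 : ‖∫ x : ℝ, 1 / ((x : ℂ) - ((s : ℂ) - (r : ℂ) * Complex.I)) ∂ν‖ ≤ C0 := by
      refine (hC t (hF t ht) _ ?_ ?_).trans (hC0' t ht)
      · simp [hr]
      · have h2 : ((s : ℂ) - (r : ℂ) * Complex.I) - (t : ℂ) =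
            ((s - b : ℝ) : ℂ) + ((b - t : ℝ) : ℂ) - (r : ℂ) * Complex.I := by
          push_cast
          ring
        rw [h2]
        have h3 : ‖((s - b : ℝ) : ℂ) + ((b - t : ℝ) : ℂ) - (r : ℂ) * Complex.I‖ ≤
            |s - b| + |b - t| + r := by
          refine (norm_sub_le _ _).trans (add_le_add ((norm_add_le _ _).trans ?_) ?_)
          · rw [Complex.norm_real, Complex.norm_real]
            exact le_rfl
          · rw [norm_mul, Complex.norm_I, mul_one, Complex.norm_real, Real.norm_eq_abs,
              abs_of_pos hr]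
        have h4 : |s - b| ≤ r := hsb
        have h5 : |b - t| < δ t / 2 := hbt
        have h6 := hδ0' t ht
        have h7 := hδ t (hF t ht)
        linarith
    have h8 := ball_le ν s r C0 hr h1
    rw [← ENNReal.ofReal_toReal (measure_ne_top ν (closedBall s r))]
    exact ENNReal.ofReal_le_ofReal h8
  obtain ⟨δ, C, hδ, hC, hball⟩ := hunif
  have hmain : ∀ r : ℝ, 0 < r → r ≤ δ →
      ν B ≤ ENNReal.ofReal C * volume (cthickening r B) := by
    intro r hr hrδ
    have h1 := tonelli ν B hB.measurableSet r hr _ (hball r hr hrδ)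
    have h2 : ENNReal.ofReal (2 * C * r) = ENNReal.ofReal (2 * r) * ENNReal.ofReal C := by
      rw [← ENNReal.ofReal_mul (by positivity)]
      congr 1
      ring
    rw [h2, mul_assoc] at h1
    exact (ENNReal.mul_le_mul_iff_right (by
      rw [ne_eq, ENNReal.ofReal_eq_zero, not_le]
      positivity) ENNReal.ofReal_ne_top).1 h1
  have hlim : Tendsto (fun r => ENNReal.ofReal C * volume (cthickening r B)) (𝓝[>] 0)
      (𝓝 (ENNReal.ofReal C * volume B)) := by
    refine ENNReal.Tendsto.const_mul ?_ (Or.inr ENNReal.ofReal_ne_top)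
    exact (tendsto_measure_cthickening_of_isCompact hB).mono_left nhdsWithin_le_nhds
  rw [hB0, mul_zero] at hlim
  refine le_antisymm (ge_of_tendsto hlim ?_) bot_le
  filter_upwards [Ioc_mem_nhdsGT hδ] with r hr
  exact hmain r hr.1 hr.2

end Pool.Agent.H860.LK
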